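import Pool.Agent.H38.LV.Gap
import Pool.Agent.H43.SI.Psi
import Pool.Agent.H5.Short.Second

/-!
# [H38 LV AVG] The mean value of `f` in `(X, 2X]` is at most `1 + C / log X`
-/

namespace Pool.Agent.H38.LV

open Finset

/-- Prime number theorem with a small error, at integers. -/
theorem psi_nat : ∃ C : ℝ, 0 < C ∧ ∀ N : ℕ, 2 ≤ N →
    |∑ n ∈ Icc 1 N, ArithmeticFunction.vonMangoldt n - N| ≤ C * N / Real.log N := by
  obtain ⟨C, hC, h⟩ := Pool.Agent.H43.SI.psi_log 1 1 one_pos
  refine ⟨C, hC, fun N hN => ?_⟩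
  have h1 := h 1 N (by exact_mod_cast hN)
  rw [if_pos rfl, Nat.floor_natCast] at h1
  have h2 : ∑ n ∈ Icc 1 N, ((ArithmeticFunction.vonMangoldt n : ℝ) : ℂ) *
      (1 : DirichletCharacter ℂ 1) n = ((∑ n ∈ Icc 1 N, ArithmeticFunction.vonMangoldt n : ℝ) : ℂ) := by
    push_cast
    refine sum_congr rfl fun n _ => ?_
    rw [MulChar.one_apply (isUnit_of_subsingleton _), mul_one]
  rw [h2] at h1
  have h3 : ((∑ n ∈ Icc 1 N, ArithmeticFunction.vonMangoldt n : ℝ) : ℂ) - ((N : ℝ) : ℂ) =
      ((∑ n ∈ Icc 1 N, ArithmeticFunction.vonMangoldt n - N : ℝ) : ℂ) := by push_cast; ring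
  rw [h3, Complex.norm_real, Real.norm_eq_abs, Real.rpow_neg_one] at h1
  rw [div_eq_mul_inv]
  exact h1

theorem f_eq (N n : ℕ) (hn : n ≤ N) :
    f n = ∑ m ∈ Icc 1 N, (if (n - m).Prime then (1 : ℝ) / m else 0) := by
  rw [f, ← sum_filter]
  refine sum_nbij' (fun p => n - p) (fun m => n - m) ?_ ?_ ?_ ?_ ?_
  · intro p hp
    rw [mem_filter, mem_range] at hp
    rw [mem_filter, mem_Icc]
    refine ⟨⟨by omega, by omega⟩, ?_⟩
    rw [Nat.sub_sub_self hp.1.le]
    exact hp.2
  · intro m hm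
    rw [mem_filter, mem_Icc] at hm
    rw [mem_filter, mem_range]
    have := hm.2.two_le
    exact ⟨by omega, hm.2⟩
  · intro p hp
    rw [mem_filter, mem_range] at hp
    exact Nat.sub_sub_self hp.1.le
  · intro m hm
    rw [mem_filter, mem_Icc] at hm
    have := hm.2.two_le
    exact Nat.sub_sub_self (by omega)
  · intro p hp
    rw [mem_filter, mem_range] at hp
    rw [Nat.cast_sub hp.1.le]

/-- The number of `n` in `(X, 2X]` with `n - m` prime. -/
noncomputable def cnt (X m : ℕ) : ℕ := ((Ioc X (2 * X)).filter fun n => (n - m).Prime).card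

theorem sum_f (X : ℕ) : ∑ n ∈ Ioc X (2 * X), f n = ∑ m ∈ Icc 1 (2 * X), (1 : ℝ) / m * cnt X m := by
  rw [sum_congr rfl fun n hn => f_eq (2 * X) n (mem_Ioc.1 hn).2, sum_comm]
  refine sum_congr rfl fun m _ => ?_
  rw [← sum_filter, sum_const, cnt, nsmul_eq_mul]
  ring

theorem half_log (X : ℕ) (hX : 4 ≤ X) : Real.log X / 2 ≤ Real.log ((X : ℝ) / 2) := by
  have h4 : (4 : ℝ) ≤ X := by exact_mod_cast hX
  have h0 : (0 : ℝ) < X := by linarith
  rw [Real.log_div h0.ne' (by norm_num)]
  have h1 : Real.log 4 ≤ Real.log X := Real.log_le_log (by norm_num) h4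
  have h2 : Real.log 4 = 2 * Real.log 2 := by
    rw [show (4 : ℝ) = 2 ^ 2 by norm_num, Real.log_pow]
    norm_num
  linarith

/-- small `m` -/
theorem cnt_small : ∃ C : ℝ, 0 < C ∧ ∀ X m : ℕ, 4 ≤ X → 2 * m ≤ X →
    (cnt X m : ℝ) * Real.log ((X : ℝ) / 2) ≤ X + C * X / Real.log X := by
  obtain ⟨C, hC, h⟩ := psi_nat
  refine ⟨6 * C, by positivity, fun X m hX hm => ?_⟩
  have hX4 : (4 : ℝ) ≤ X := by exact_mod_cast hX
  have hX0 : (0 : ℝ) < X := by linarith
  have hmR : 2 * (m : ℝ) ≤ X := by exact_mod_cast hm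
  have hlog : 0 < Real.log X := Real.log_pos (by linarith)
  have hhalf := half_log X hX
  have hl2 : 0 < Real.log ((X : ℝ) / 2) := by linarith
  have h1 := h (2 * X - m) (by omega)
  have h2 := h (X - m) (by omega)
  have hc1 : ((2 * X - m : ℕ) : ℝ) = 2 * X - m := by
    rw [Nat.cast_sub (by omega)]
    push_cast
    ring
  have hc2 : ((X - m : ℕ) : ℝ) = X - m := by
    rw [Nat.cast_sub (by omega)]
  rw [hc1] at h1
  rw [hc2] at h2
  have hm0 : (0 : ℝ) ≤ m := Nat.cast_nonneg _
  have e1 : C * (2 * X - m) / Real.log (2 * X - m) ≤ C * (2 * X) / Real.log ((X : ℝ) / 2) := by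
    have : Real.log ((X : ℝ) / 2) ≤ Real.log (2 * X - m) := Real.log_le_log (by linarith) (by linarith)
    gcongr
    · linarith
  have e2 : C * (X - m) / Real.log (X - m) ≤ C * X / Real.log ((X : ℝ) / 2) := by
    have : Real.log ((X : ℝ) / 2) ≤ Real.log (X - m) := Real.log_le_log (by linarith) (by linarith)
    gcongr
    · linarith
  have e3 : C * (2 * X) / Real.log ((X : ℝ) / 2) + C * X / Real.log ((X : ℝ) / 2) ≤
      6 * C * X / Real.log X := by
    rw [← add_div, div_le_div_iff₀ hl2 hlog]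
    nlinarith [mul_pos hC hX0]
  have hs : ∑ n ∈ Icc 1 (2 * X - m), ArithmeticFunction.vonMangoldt n =
      ∑ n ∈ Icc 1 (X - m), ArithmeticFunction.vonMangoldt n +
        ∑ n ∈ Ioc (X - m) (2 * X - m), ArithmeticFunction.vonMangoldt n := by
    have : Icc 1 (2 * X - m) = Icc 1 (X - m) ∪ Ioc (X - m) (2 * X - m) := by
      ext n
      simp only [mem_Icc, mem_union, mem_Ioc]
      omega
    rw [this, sum_union]
    rw [disjoint_left]
    intro n hn hn'
    rw [mem_Icc] at hn
    rw [mem_Ioc] at hn'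
    omega
  have hmain : (cnt X m : ℝ) * Real.log ((X : ℝ) / 2) ≤
      ∑ n ∈ Ioc (X - m) (2 * X - m), (ArithmeticFunction.vonMangoldt n : ℝ) := by
    have hcard : cnt X m = ((Ioc (X - m) (2 * X - m)).filter Nat.Prime).card := by
      rw [cnt]
      refine card_nbij' (fun n => n - m) (fun q => q + m) ?_ ?_ ?_ ?_
      · intro n hn
        simp only [mem_coe, mem_filter, mem_Ioc] at hn ⊢
        exact ⟨⟨by omega, by omega⟩, hn.2⟩
      · intro q hq
        simp only [mem_coe, mem_filter, mem_Ioc] at hq ⊢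
        refine ⟨⟨by omega, by omega⟩, ?_⟩
        rw [Nat.add_sub_cancel]
        exact hq.2
      · intro n hn
        rw [mem_coe, mem_filter, mem_Ioc] at hn
        dsimp only
        omega
      · intro q _
        dsimp only
        omega
    rw [hcard, ← nsmul_eq_mul, ← sum_const]
    calc ∑ _n ∈ (Ioc (X - m) (2 * X - m)).filter Nat.Prime, Real.log ((X : ℝ) / 2)
        ≤ ∑ n ∈ (Ioc (X - m) (2 * X - m)).filter Nat.Prime, (ArithmeticFunction.vonMangoldt n : ℝ) := by
          refine sum_le_sum fun q hq => ?_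
          rw [mem_filter, mem_Ioc] at hq
          rw [ArithmeticFunction.vonMangoldt_apply_prime hq.2]
          have : ((X - m : ℕ) : ℝ) < q := by exact_mod_cast hq.1.1
          rw [hc2] at this
          exact Real.log_le_log (by linarith) (by linarith)
      _ ≤ _ := sum_le_sum_of_subset_of_nonneg (filter_subset _ _)
          fun n _ _ => ArithmeticFunction.vonMangoldt_nonneg
  rw [abs_le] at h1 h2
  linarith [h1.2, h2.1]

/-- all `m` -/
theorem cnt_large : ∃ C : ℝ, 0 < C ∧ ∀ X m : ℕ, 4 ≤ X → (cnt X m : ℝ) ≤ C * X / Real.log X := by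
  obtain ⟨C, hC, h⟩ := Pool.Agent.H5.Short.pi_le
  refine ⟨2 * C, by positivity, fun X m hX => ?_⟩
  have hX4 : (4 : ℝ) ≤ X := by exact_mod_cast hX
  have hlog : 0 < Real.log X := Real.log_pos (by linarith)
  have h1 : cnt X m ≤ ((Icc 1 (2 * X)).filter Nat.Prime).card := by
    rw [cnt]
    refine card_le_card_of_injOn (fun n => n - m) ?_ ?_
    · intro n hn
      simp only [mem_coe, mem_filter, mem_Ioc, mem_Icc] at hn ⊢
      exact ⟨⟨hn.2.one_le, by omega⟩, hn.2⟩
    · intro n hn n' hn' he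
      rw [mem_coe, mem_filter, mem_Ioc] at hn hn'
      have := hn.2.two_le
      have := hn'.2.two_le
      dsimp only at he
      omega
  have h2 := h (2 * X) (by omega)
  calc (cnt X m : ℝ) ≤ (((Icc 1 (2 * X)).filter Nat.Prime).card : ℝ) := by exact_mod_cast h1
    _ ≤ C * ((2 * X : ℕ) : ℝ) / Real.log ((2 * X : ℕ) : ℝ) := h2
    _ ≤ 2 * C * X / Real.log X := by
      have : Real.log X ≤ Real.log ((2 * X : ℕ) : ℝ) :=
        Real.log_le_log (by linarith) (by push_cast; linarith)
      push_cast at this ⊢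
      rw [show 2 * C * (X : ℝ) = C * (2 * X) by ring]
      gcongr

theorem avg : ∃ C : ℝ, 0 < C ∧ ∀ X : ℕ, 4 ≤ X →
    ∑ n ∈ Ioc X (2 * X), f n ≤ X + C * X / Real.log X := by
  obtain ⟨C1, hC1, h1⟩ := cnt_small
  obtain ⟨C2, hC2, h2⟩ := cnt_large
  refine ⟨3 * C1 + 2 + 4 * C2, by positivity, fun X hX => ?_⟩
  have hX4 : (4 : ℝ) ≤ X := by exact_mod_cast hX
  have hX0 : (0 : ℝ) < X := by linarith
  have hlog1 : 1 ≤ Real.log X := by
    rw [Real.le_log_iff_exp_le hX0]
    linarith [Real.exp_one_lt_d9]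
  have hlog : 0 < Real.log X := by linarith
  have hhalf := half_log X hX
  have hl2 : 0 < Real.log ((X : ℝ) / 2) := by linarith
  rw [sum_f]
  have hsplit : Icc 1 (2 * X) = Icc 1 (X / 2) ∪ Ioc (X / 2) (2 * X) := by
    ext n
    simp only [mem_Icc, mem_union, mem_Ioc]
    omega
  rw [hsplit, sum_union (by
    rw [disjoint_left]
    intro n hn hn'
    rw [mem_Icc] at hn
    rw [mem_Ioc] at hn'
    omega)]
  have hA : ∑ m ∈ Icc 1 (X / 2), (1 : ℝ) / m * cnt X m ≤
      (1 + Real.log ((X : ℝ) / 2)) * ((X + C1 * X / Real.log X) / Real.log ((X : ℝ) / 2)) := by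
    calc ∑ m ∈ Icc 1 (X / 2), (1 : ℝ) / m * cnt X m
        ≤ ∑ m ∈ Icc 1 (X / 2), (1 : ℝ) / m * ((X + C1 * X / Real.log X) / Real.log ((X : ℝ) / 2)) := by
          refine sum_le_sum fun m hm => ?_
          rw [mem_Icc] at hm
          refine mul_le_mul_of_nonneg_left ?_ (by positivity)
          rw [le_div_iff₀ hl2]
          exact h1 X m hX (by omega)
      _ = (∑ m ∈ Icc 1 (X / 2), (1 : ℝ) / m) *
          ((X + C1 * X / Real.log X) / Real.log ((X : ℝ) / 2)) := by rw [sum_mul]
      _ ≤ _ := by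
          refine mul_le_mul_of_nonneg_right ?_ (by positivity)
          have h3 := harmonic_le_one_add_log (X / 2)
          have h4 : ((harmonic (X / 2) : ℚ) : ℝ) = ∑ m ∈ Icc 1 (X / 2), (1 : ℝ) / m := by
            rw [harmonic_eq_sum_Icc]
            push_cast
            refine sum_congr rfl fun m _ => ?_
            rw [one_div]
          rw [h4] at h3
          refine h3.trans ?_
          have h5 : (1 : ℝ) ≤ ((X / 2 : ℕ) : ℝ) := by exact_mod_cast (by omega : 1 ≤ X / 2)
          have h6 : ((X / 2 : ℕ) : ℝ) ≤ (X : ℝ) / 2 := Nat.cast_div_le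
          have := Real.log_le_log (by linarith) h6
          linarith
  have hB : ∑ m ∈ Ioc (X / 2) (2 * X), (1 : ℝ) / m * cnt X m ≤ 4 * (C2 * X / Real.log X) := by
    calc ∑ m ∈ Ioc (X / 2) (2 * X), (1 : ℝ) / m * cnt X m
        ≤ ∑ m ∈ Ioc (X / 2) (2 * X), (2 : ℝ) / X * (C2 * X / Real.log X) := by
          refine sum_le_sum fun m hm => ?_
          rw [mem_Ioc] at hm
          have h3 : (X : ℝ) / 2 ≤ m := by
            have : X ≤ 2 * m := by omega
            have : (X : ℝ) ≤ 2 * m := by exact_mod_cast this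
            linarith
          have h4 : (1 : ℝ) / m ≤ 2 / X := by
            rw [div_le_div_iff₀ (by linarith) hX0]
            linarith
          exact mul_le_mul h4 (h2 X m hX) (Nat.cast_nonneg _) (by positivity)
      _ = ((2 * X - X / 2 : ℕ) : ℝ) * (2 / X * (C2 * X / Real.log X)) := by
          rw [sum_const, Nat.card_Ioc, nsmul_eq_mul]
      _ ≤ (2 * X) * (2 / X * (C2 * X / Real.log X)) := by
          refine mul_le_mul_of_nonneg_right ?_ (by positivity)
          exact_mod_cast (by omega : 2 * X - X / 2 ≤ 2 * X)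
      _ = 4 * (C2 * X / Real.log X) := by
          field_simp
          ring
  have hC : (1 + Real.log ((X : ℝ) / 2)) * ((X + C1 * X / Real.log X) / Real.log ((X : ℝ) / 2)) ≤
      X + (3 * C1 + 2) * X / Real.log X := by
    have e1 : (1 + Real.log ((X : ℝ) / 2)) * ((X + C1 * X / Real.log X) / Real.log ((X : ℝ) / 2)) =
        (X + C1 * X / Real.log X) * (1 + 1 / Real.log ((X : ℝ) / 2)) := by
      field_simp
      ring
    rw [e1]
    have e2 : 1 / Real.log ((X : ℝ) / 2) ≤ 2 / Real.log X := by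
      rw [div_le_div_iff₀ hl2 hlog]
      linarith
    have e3 : (0 : ℝ) ≤ X + C1 * X / Real.log X := by positivity
    calc (X + C1 * X / Real.log X) * (1 + 1 / Real.log ((X : ℝ) / 2))
        ≤ (X + C1 * X / Real.log X) * (1 + 2 / Real.log X) := by gcongr
      _ = X + (C1 + 2) * X / Real.log X + 2 * C1 * X / Real.log X * (1 / Real.log X) := by
          field_simp
          ring
      _ ≤ X + (C1 + 2) * X / Real.log X + 2 * C1 * X / Real.log X * 1 := by
          gcongr
          rw [div_le_one hlog]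
          exact hlog1
      _ = X + (3 * C1 + 2) * X / Real.log X := by ring
  calc _ ≤ (X + (3 * C1 + 2) * X / Real.log X) + 4 * (C2 * X / Real.log X) :=
        add_le_add (hA.trans hC) hB
    _ = X + (3 * C1 + 2 + 4 * C2) * X / Real.log X := by ring

end Pool.Agent.H38.LV
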