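import Pool.Agent.H38.LV.Avg

/-!
# [H38 LV CNT] Number of primes in `(X, 2X]` and small gaps
-/

namespace Pool.Agent.H38.LV

open Finset

theorem sqrt_log (X : ℝ) (hX : 4 ≤ X) : 2 * Real.sqrt (2 * X) * Real.log (2 * X) ≤ 1200 * X / Real.log X := by
  have h0 : (0 : ℝ) < X := by linarith
  have hlog : 0 < Real.log X := Real.log_pos (by linarith)
  have hl : Real.log (2 * X) ≤ 2 * Real.log X := by
    rw [Real.log_mul (by norm_num) h0.ne']
    have : Real.log 2 ≤ Real.log X := Real.log_le_log (by norm_num) (by linarith)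
    linarith
  have h1 := Pool.Agent.H5.Short.log_sq_le X (by linarith)
  have h2 : X ^ ((1 : ℝ) / 5) ≤ Real.sqrt X := by
    rw [Real.sqrt_eq_rpow]
    exact Real.rpow_le_rpow_of_exponent_le (by linarith) (by norm_num)
  have h3 : Real.sqrt (2 * X) ≤ 3 / 2 * Real.sqrt X := by
    rw [Real.sqrt_mul (by norm_num)]
    have : Real.sqrt 2 ≤ 3 / 2 := by
      rw [Real.sqrt_le_left (by norm_num)]
      norm_num
    exact mul_le_mul_of_nonneg_right this (Real.sqrt_nonneg _)
  have h4 : Real.sqrt X * Real.sqrt X = X := Real.mul_self_sqrt h0.le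
  have h5 : 0 ≤ Real.sqrt X := Real.sqrt_nonneg _
  rw [le_div_iff₀ hlog]
  have h6 : 0 ≤ Real.log (2 * X) := Real.log_nonneg (by linarith)
  calc 2 * Real.sqrt (2 * X) * Real.log (2 * X) * Real.log X
      ≤ 2 * (3 / 2 * Real.sqrt X) * (2 * Real.log X) * Real.log X := by gcongr
    _ = 6 * Real.sqrt X * (Real.log X) ^ 2 := by ring
    _ ≤ 6 * Real.sqrt X * (100 * Real.sqrt X) := by
        gcongr
        linarith
    _ = 600 * (Real.sqrt X * Real.sqrt X) := by ring
    _ ≤ 1200 * X := by rw [h4]; linarith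

/-- Lower bound for the number of primes in `(X, 2X]`. -/
theorem count_lb : ∃ C : ℝ, 0 < C ∧ ∀ X : ℕ, 4 ≤ X →
    (X : ℝ) / Real.log X - C * X / (Real.log X) ^ 2 ≤ (((Ioc X (2 * X)).filter Nat.Prime).card : ℝ) := by
  obtain ⟨C, hC, h⟩ := psi_nat
  refine ⟨3 * C + 1200 + 1, by positivity, fun X hX => ?_⟩
  have hX4 : (4 : ℝ) ≤ X := by exact_mod_cast hX
  have hX0 : (0 : ℝ) < X := by linarith
  have hlog1 : 1 ≤ Real.log X := by
    rw [Real.le_log_iff_exp_le hX0]
    linarith [Real.exp_one_lt_d9]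
  have hlog : 0 < Real.log X := by linarith
  have h1 := h (2 * X) (by omega)
  have h2 := h X (by omega)
  have hl2 : Real.log X ≤ Real.log ((2 * X : ℕ) : ℝ) :=
    Real.log_le_log hX0 (by push_cast; linarith)
  have hl3 : Real.log ((2 * X : ℕ) : ℝ) ≤ Real.log X + 1 := by
    push_cast
    rw [Real.log_mul (by norm_num) hX0.ne']
    linarith [Real.log_two_lt_d9]
  have hl20 : 0 < Real.log ((2 * X : ℕ) : ℝ) := by linarith
  have e1 : C * ((2 * X : ℕ) : ℝ) / Real.log ((2 * X : ℕ) : ℝ) ≤ C * (2 * X) / Real.log X := by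
    push_cast at hl2 ⊢
    gcongr
  have hs : ∑ n ∈ Icc 1 (2 * X), ArithmeticFunction.vonMangoldt n =
      ∑ n ∈ Icc 1 X, ArithmeticFunction.vonMangoldt n +
        ∑ n ∈ Ioc X (2 * X), ArithmeticFunction.vonMangoldt n := by
    have : Icc 1 (2 * X) = Icc 1 X ∪ Ioc X (2 * X) := by
      ext n
      simp only [mem_Icc, mem_union, mem_Ioc]
      omega
    rw [this, sum_union]
    rw [disjoint_left]
    intro n hn hn'
    rw [mem_Icc] at hn
    rw [mem_Ioc] at hn'
    omega
  rw [abs_le] at h1 h2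
  have h3 : (X : ℝ) - C * (2 * X) / Real.log X - C * X / Real.log X ≤
      ∑ n ∈ Ioc X (2 * X), (ArithmeticFunction.vonMangoldt n : ℝ) := by
    have := h1.1
    have := h2.2
    push_cast at *
    linarith
  -- prime powers
  have h4 : ∑ n ∈ Ioc X (2 * X), (ArithmeticFunction.vonMangoldt n : ℝ) ≤
      (((Ioc X (2 * X)).filter Nat.Prime).card : ℝ) * Real.log ((2 * X : ℕ) : ℝ) +
        2 * Real.sqrt (2 * X) * Real.log (2 * X) := by
    rw [← sum_filter_add_sum_filter_not (Ioc X (2 * X)) Nat.Prime]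
    refine add_le_add ?_ ?_
    · rw [← nsmul_eq_mul, ← sum_const]
      refine sum_le_sum fun q hq => ?_
      rw [mem_filter, mem_Ioc] at hq
      rw [ArithmeticFunction.vonMangoldt_apply_prime hq.2]
      exact Real.log_le_log (by exact_mod_cast hq.2.pos) (by exact_mod_cast hq.1.2)
    · have h5 := Chebyshev.psi_sub_theta_le (x := 2 * (X : ℝ)) (by linarith)
      refine le_trans ?_ h5
      have h6 : Chebyshev.psi (2 * (X : ℝ)) - Chebyshev.theta (2 * (X : ℝ)) =
          ∑ n ∈ (Ioc 0 (2 * X)).filter (fun n => ¬ n.Prime), (ArithmeticFunction.vonMangoldt n : ℝ) := by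
        rw [Chebyshev.psi, Chebyshev.theta]
        have hf : ⌊2 * (X : ℝ)⌋₊ = 2 * X := by
          rw [show (2 * (X : ℝ)) = ((2 * X : ℕ) : ℝ) by push_cast; ring, Nat.floor_natCast]
        rw [hf, ← sum_filter_add_sum_filter_not (Ioc 0 (2 * X)) Nat.Prime
          (fun n => ArithmeticFunction.vonMangoldt n)]
        have : ∑ p ∈ (Ioc 0 (2 * X)).filter Nat.Prime, Real.log (p : ℝ) =
            ∑ p ∈ (Ioc 0 (2 * X)).filter Nat.Prime, ArithmeticFunction.vonMangoldt p := by
          refine sum_congr rfl fun p hp => ?_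
          rw [mem_filter] at hp
          rw [ArithmeticFunction.vonMangoldt_apply_prime hp.2]
        rw [this]
        ring
      rw [h6]
      refine sum_le_sum_of_subset_of_nonneg ?_ fun n _ _ => ArithmeticFunction.vonMangoldt_nonneg
      refine filter_subset_filter _ (Ioc_subset_Ioc (Nat.zero_le _) le_rfl)
  have h7 := sqrt_log X hX4
  set N : ℝ := (((Ioc X (2 * X)).filter Nat.Prime).card : ℝ) with hN
  have hN0 : 0 ≤ N := Nat.cast_nonneg _
  have h8 : N * Real.log ((2 * X : ℕ) : ℝ) ≤ N * (Real.log X + 1) := by gcongr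
  have h9 : (X : ℝ) - (3 * C + 1200) * X / Real.log X ≤ N * (Real.log X + 1) := by
    have e2 : C * (2 * X) / Real.log X + C * X / Real.log X + 1200 * X / Real.log X =
        (3 * C + 1200) * X / Real.log X := by ring
    linarith
  set L := Real.log X with hL
  by_contra hcon
  rw [not_le] at hcon
  have h10 : N * (L + 1) < (X / L - (3 * C + 1200 + 1) * X / L ^ 2) * (L + 1) := by
    have : 0 < L + 1 := by linarith
    exact mul_lt_mul_of_pos_right hcon this
  have h11 : (X / L - (3 * C + 1200 + 1) * X / L ^ 2) * (L + 1) =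
      X - (3 * C + 1200) * X / L - (3 * C + 1200 + 1) * X / L ^ 2 := by
    field_simp
    ring
  have h12 : 0 ≤ (3 * C + 1200 + 1) * X / L ^ 2 := by positivity
  rw [h11] at h10
  linarith

/-- The next prime. -/
noncomputable def nx (p : ℕ) : ℕ := Nat.find (Nat.exists_infinite_primes (p + 1))

theorem nx_prime (p : ℕ) : (nx p).Prime := (Nat.find_spec (Nat.exists_infinite_primes (p + 1))).2

theorem lt_nx (p : ℕ) : p < nx p := (Nat.find_spec (Nat.exists_infinite_primes (p + 1))).1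

theorem nx_le {p q : ℕ} (hq : q.Prime) (h : p < q) : nx p ≤ q :=
  Nat.find_min' (Nat.exists_infinite_primes (p + 1)) ⟨h, hq⟩

/-- The primes in `(X, 2X]` whose successor is in `(X, 2X]`. -/
noncomputable def S (X : ℕ) : Finset ℕ := (Ioc X (2 * X)).filter fun p => p.Prime ∧ nx p ≤ 2 * X

theorem S_card (X : ℕ) : (((Ioc X (2 * X)).filter Nat.Prime).card : ℝ) - 1 ≤ ((S X).card : ℝ) := by
  have h : ((Ioc X (2 * X)).filter Nat.Prime).card ≤ (S X).card + 1 := by
    have h1 : (Ioc X (2 * X)).filter Nat.Prime ⊆ S X ∪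
        ((Ioc X (2 * X)).filter fun p => p.Prime ∧ ¬ nx p ≤ 2 * X) := by
      intro p hp
      rw [mem_filter] at hp
      rw [S, mem_union, mem_filter, mem_filter]
      by_cases h : nx p ≤ 2 * X
      · exact Or.inl ⟨hp.1, hp.2, h⟩
      · exact Or.inr ⟨hp.1, hp.2, h⟩
    refine (card_le_card h1).trans ((card_union_le _ _).trans ?_)
    gcongr
    rw [card_le_one]
    intro p hp q hq
    rw [mem_filter, mem_Ioc] at hp hq
    by_contra hne
    rcases Nat.lt_or_gt_of_ne hne with h | h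
    · exact hp.2.2 ((nx_le hq.2.1 h).trans hq.1.2)
    · exact hq.2.2 ((nx_le hp.2.1 h).trans hp.1.2)
  have : (((Ioc X (2 * X)).filter Nat.Prime).card : ℝ) ≤ (S X).card + 1 := by exact_mod_cast h
  linarith

/-- Few small gaps. -/
theorem few_small : ∃ C : ℝ, 0 < C ∧ ∀ X m : ℕ, 4 ≤ X → m ≤ X →
    (((S X).filter fun p => nx p - p ≤ m).card : ℝ) ≤ C * m * X / (Real.log X) ^ 2 := by
  obtain ⟨C1, hC1, h1⟩ := Pool.Agent.H5.Short.pairs
  obtain ⟨C2, hC2, h2⟩ := Pool.Agent.H5.Short.sum_weight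
  refine ⟨2 * C1 * C2, by positivity, fun X m hX hm => ?_⟩
  have hX4 : (4 : ℝ) ≤ X := by exact_mod_cast hX
  have hX0 : (0 : ℝ) < X := by linarith
  have hlog : 0 < Real.log X := Real.log_pos (by linarith)
  have hl2 : Real.log X ≤ Real.log ((2 * X : ℕ) : ℝ) :=
    Real.log_le_log hX0 (by push_cast; linarith)
  have hsub : (S X).filter (fun p => nx p - p ≤ m) ⊆
      (Icc 1 m).biUnion fun d => (Icc 1 (2 * X)).filter fun p => p.Prime ∧ (p + d).Prime := by
    intro p hp
    rw [mem_filter, S, mem_filter, mem_Ioc] at hp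
    rw [mem_biUnion]
    have h3 := lt_nx p
    refine ⟨nx p - p, ?_, ?_⟩
    · rw [mem_Icc]
      exact ⟨by omega, hp.2⟩
    · rw [mem_filter, mem_Icc]
      refine ⟨⟨hp.1.2.1.one_le, hp.1.1.2⟩, hp.1.2.1, ?_⟩
      rw [Nat.add_sub_cancel' h3.le]
      exact nx_prime p
  calc (((S X).filter fun p => nx p - p ≤ m).card : ℝ)
      ≤ ∑ d ∈ Icc 1 m, (((Icc 1 (2 * X)).filter fun p => p.Prime ∧ (p + d).Prime).card : ℝ) := by
        have := (card_le_card hsub).trans card_biUnion_le
        exact_mod_cast this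
    _ ≤ ∑ d ∈ Icc 1 m, (1 + ∑ p ∈ (2 * d).primeFactors, 1 / Real.sqrt p) *
          (C1 * (2 * X) / (Real.log X) ^ 2) := by
        refine sum_le_sum fun d hd => ?_
        rw [mem_Icc] at hd
        refine (h1 (2 * X) d (by omega) hd.1 (by omega)).trans ?_
        have hw : 0 ≤ 1 + ∑ p ∈ (2 * d).primeFactors, 1 / Real.sqrt p := by
          have : 0 ≤ ∑ p ∈ (2 * d).primeFactors, 1 / Real.sqrt p := sum_nonneg fun p _ => by positivity
          linarith
        push_cast at hl2 ⊢
        calc C1 * (1 + ∑ p ∈ (2 * d).primeFactors, 1 / Real.sqrt p) * (2 * X) /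
              (Real.log (2 * X)) ^ 2
            ≤ C1 * (1 + ∑ p ∈ (2 * d).primeFactors, 1 / Real.sqrt p) * (2 * X) /
              (Real.log X) ^ 2 := by gcongr
          _ = _ := by ring
    _ = (∑ d ∈ Icc 1 m, (1 + ∑ p ∈ (2 * d).primeFactors, 1 / Real.sqrt p)) *
          (C1 * (2 * X) / (Real.log X) ^ 2) := by rw [sum_mul]
    _ ≤ (C2 * m) * (C1 * (2 * X) / (Real.log X) ^ 2) :=
        mul_le_mul_of_nonneg_right (h2 m) (by positivity)
    _ = 2 * C1 * C2 * m * X / (Real.log X) ^ 2 := by ring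

/-- Lower bound for the sum of the harmonic numbers of the gaps. -/
theorem gaps_lb : ∃ C : ℝ, 0 < C ∧ ∀ X : ℕ, 4 ≤ X →
    ((S X).card : ℝ) * Real.log (Real.log X) - C * X / Real.log X ≤
      ∑ p ∈ S X, ∑ j ∈ Icc 1 (nx p - p), (1 : ℝ) / j := by
  obtain ⟨C, hC, h⟩ := few_small
  refine ⟨C, hC, fun X hX => ?_⟩
  have hX4 : (4 : ℝ) ≤ X := by exact_mod_cast hX
  have hX0 : (0 : ℝ) < X := by linarith
  have hlog1 : 1 ≤ Real.log X := by
    rw [Real.le_log_iff_exp_le hX0]
    linarith [Real.exp_one_lt_d9]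
  have hlog : 0 < Real.log X := by linarith
  set M := ⌊Real.log X⌋₊ with hM
  have hM1 : (M : ℝ) ≤ Real.log X := Nat.floor_le hlog.le
  have hM2 : Real.log X ≤ (M : ℝ) + 1 := (Nat.lt_floor_add_one _).le
  have hMX : M ≤ X := by
    have : (M : ℝ) ≤ X := hM1.trans ((Real.log_le_sub_one_of_pos hX0).trans (by linarith))
    exact_mod_cast this
  have hH : Real.log (Real.log X) ≤ ∑ j ∈ Icc 1 M, (1 : ℝ) / j := by
    have h1 := log_add_one_le_harmonic M
    have h4 : ((harmonic M : ℚ) : ℝ) = ∑ m ∈ Icc 1 M, (1 : ℝ) / m := by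
      rw [harmonic_eq_sum_Icc]
      push_cast
      refine sum_congr rfl fun m _ => ?_
      rw [one_div]
    rw [h4] at h1
    refine le_trans (Real.log_le_log hlog ?_) h1
    push_cast
    exact hM2
  have hone : ∀ p ∈ S X, (∑ j ∈ Icc 1 M, (1 : ℝ) / j) -
      ∑ m ∈ Icc 1 M, (if nx p - p ≤ m then (1 : ℝ) / m else 0) ≤
        ∑ j ∈ Icc 1 (nx p - p), (1 : ℝ) / j := by
    intro p _
    rw [← sum_sub_distrib]
    have : ∀ m ∈ Icc 1 M, (1 : ℝ) / m - (if nx p - p ≤ m then (1 : ℝ) / m else 0) =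
        if m < nx p - p then (1 : ℝ) / m else 0 := by
      intro m _
      split_ifs with h1 h2 h2
      · omega
      · ring
      · ring
      · omega
    rw [sum_congr rfl this, ← sum_filter]
    refine sum_le_sum_of_subset_of_nonneg ?_ fun j _ _ => by positivity
    intro m hm
    rw [mem_filter, mem_Icc] at hm
    rw [mem_Icc]
    omega
  have hall := sum_le_sum hone
  rw [sum_sub_distrib, sum_const, nsmul_eq_mul, sum_comm] at hall
  have hsmall : ∑ m ∈ Icc 1 M, ∑ p ∈ S X, (if nx p - p ≤ m then (1 : ℝ) / m else 0) ≤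
      C * X / Real.log X := by
    calc ∑ m ∈ Icc 1 M, ∑ p ∈ S X, (if nx p - p ≤ m then (1 : ℝ) / m else 0)
        ≤ ∑ _m ∈ Icc 1 M, C * X / (Real.log X) ^ 2 := by
          refine sum_le_sum fun m hm => ?_
          rw [mem_Icc] at hm
          have hm0 : (0 : ℝ) < m := by exact_mod_cast hm.1
          rw [← sum_filter, sum_const, nsmul_eq_mul]
          have := h X m hX (by omega)
          calc (((S X).filter fun p => nx p - p ≤ m).card : ℝ) * (1 / m)
              ≤ C * m * X / (Real.log X) ^ 2 * (1 / m) := by gcongr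
            _ = C * X / (Real.log X) ^ 2 := by field_simp
      _ = M * (C * X / (Real.log X) ^ 2) := by
          rw [sum_const, Nat.card_Icc, nsmul_eq_mul]
          congr 2
      _ ≤ Real.log X * (C * X / (Real.log X) ^ 2) := by gcongr
      _ = C * X / Real.log X := by field_simp
  have : ((S X).card : ℝ) * Real.log (Real.log X) ≤ ((S X).card : ℝ) * ∑ j ∈ Icc 1 M, (1 : ℝ) / j := by
    gcongr
  linarith

end Pool.Agent.H38.LV
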