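import Mathlib

/-!
# Kernels: the definition of the statement
-/

set_option autoImplicit false

namespace Pool.Agent.H38.LV

/-- the subgroup `K` of `H` is hyper-(locally nilpotent or locally finite): for every normal subgroup `N < K` of `H` there is a
normal subgroup `L ≠ 1` of `H / N` in `K / N` whose finitely generated subgroups are nilpotent, or all of whose finitely generated
subgroups are finite -/
def IsHyper {H : Type} [Group H] (K : Subgroup H) : Prop :=
  ∀ (N : Subgroup H) [N.Normal], N < K → ∃ L : Subgroup (H ⧸ N), L.Normal ∧ L ≠ ⊥ ∧ L ≤ K.map (QuotientGroup.mk' N) ∧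
    ((∀ S : Subgroup L, S.FG → Group.IsNilpotent S) ∨ ∀ S : Subgroup L, S.FG → Finite S)

end Pool.Agent.H38.LV
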