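import Pool.Agent.H38.LV.Cnt

/-!
# [H38 LV FIN] The number of `n` in `(X, 2X]` with `f n < 1 - δ`
-/

namespace Pool.Agent.H38.LV

open Finset

theorem sum_gaps (X : ℕ) (Y : ℕ → ℝ) (hY : ∀ n, 0 ≤ Y n) :
    ∑ p ∈ S X, ∑ j ∈ Icc 1 (nx p - p), Y (p + j) ≤ ∑ n ∈ Ioc X (2 * X), Y n := by
  have h1 : ∀ p ∈ S X, ∑ j ∈ Icc 1 (nx p - p), Y (p + j) = ∑ n ∈ Ioc p (nx p), Y n := by
    intro p _
    have h := lt_nx p
    refine sum_nbij' (fun j => p + j) (fun n => n - p) ?_ ?_ ?_ ?_ ?_
    · intro j hj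
      rw [mem_Icc] at hj
      rw [mem_Ioc]
      omega
    · intro n hn
      rw [mem_Ioc] at hn
      rw [mem_Icc]
      omega
    · intro j _
      omega
    · intro n hn
      rw [mem_Ioc] at hn
      omega
    · intro j _
      rfl
  rw [sum_congr rfl h1, ← sum_biUnion]
  · refine sum_le_sum_of_subset_of_nonneg ?_ fun n _ _ => hY n
    intro n hn
    rw [mem_biUnion] at hn
    obtain ⟨p, hp, hn⟩ := hn
    rw [S, mem_filter, mem_Ioc] at hp
    rw [mem_Ioc] at hn ⊢
    omega
  · intro p hp q hq hne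
    rw [mem_coe, S, mem_filter] at hp hq
    rw [Function.onFun, disjoint_left]
    intro n hn hn'
    rw [mem_Ioc] at hn hn'
    rcases Nat.lt_or_gt_of_ne hne with h | h
    · have := nx_le hq.2.1 h
      omega
    · have := nx_le hp.2.1 h
      omega

theorem main : ∃ C : ℝ, 0 < C ∧ ∀ X : ℕ, 3 ≤ X → ∀ δ : ℝ, 0 ≤ δ →
    (X : ℝ) / 2 * ((Real.log (Real.log X) - C) / Real.log X - δ) ≤
      (((Ioc X (2 * X)).filter fun n => f n < 1 - δ).card : ℝ) := by
  obtain ⟨C1, hC1, h1⟩ := avg
  obtain ⟨C2, hC2, h2⟩ := count_lb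
  obtain ⟨C3, hC3, h3⟩ := gaps_lb
  refine ⟨C1 + C2 + C3 + 4, by positivity, fun X hX δ hδ => ?_⟩
  have hX3 : (3 : ℝ) ≤ X := by exact_mod_cast hX
  have hX0 : (0 : ℝ) < X := by linarith
  have hlog1 : 1 ≤ Real.log X := by
    rw [Real.le_log_iff_exp_le hX0]
    linarith [Real.exp_one_lt_d9]
  have hlog : 0 < Real.log X := by linarith
  set B := (Ioc X (2 * X)).filter fun n => f n < 1 - δ with hB
  have hB0 : (0 : ℝ) ≤ (B.card : ℝ) := Nat.cast_nonneg _
  rcases lt_or_ge (Real.log (Real.log X)) 1 with hs | hs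
  · refine le_trans ?_ hB0
    refine mul_nonpos_of_nonneg_of_nonpos (by positivity) ?_
    have : (Real.log (Real.log X) - (C1 + C2 + C3 + 4)) / Real.log X ≤ 0 :=
      div_nonpos_of_nonpos_of_nonneg (by linarith) hlog.le
    linarith
  · have hX4 : 4 ≤ X := by
      by_contra hcon
      have : X = 3 := by omega
      subst this
      have h5 : Real.log ((3 : ℕ) : ℝ) ≤ 2 := by
        have := Real.log_le_sub_one_of_pos (show (0 : ℝ) < ((3 : ℕ) : ℝ) by norm_num)
        push_cast at this ⊢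
        linarith
      have h6 : Real.log (Real.log ((3 : ℕ) : ℝ)) ≤ Real.log 2 := Real.log_le_log (by linarith) h5
      linarith [Real.log_two_lt_d9]
    have a1 := h1 X hX4
    have a2 := h2 X hX4
    have a3 := h3 X hX4
    have a4 := S_card X
    set L := Real.log X with hL
    have hLL : Real.log L ≤ L := (Real.log_le_sub_one_of_pos hlog).trans (by linarith)
    have hLX : L ≤ X := (Real.log_le_sub_one_of_pos hX0).trans (by linarith)
    -- the sum over all gaps
    have hY : ∀ n : ℕ, 0 ≤ f n - 1 + δ + 2 * (if f n < 1 - δ then (1 : ℝ) else 0) := by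
      intro n
      have := f_nonneg n
      split_ifs with h
      · linarith
      · linarith
    have b1 := sum_gaps X (fun n => f n - 1 + δ + 2 * (if f n < 1 - δ then (1 : ℝ) else 0)) hY
    have b2 : ∑ p ∈ S X, ((∑ j ∈ Icc 1 (nx p - p), (1 : ℝ) / j) - 1) ≤
        ∑ p ∈ S X, ∑ j ∈ Icc 1 (nx p - p),
          (f (p + j) - 1 + δ + 2 * (if f (p + j) < 1 - δ then (1 : ℝ) else 0)) := by
      refine sum_le_sum fun p hp => ?_
      rw [S, mem_filter] at hp
      have h7 := lt_nx p
      refine gap_sum p hp.2.1 δ hδ (nx p - p) (by omega) fun q hq1 hq2 hq => ?_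
      have := nx_le hq hq1
      omega
    have b3 : ∑ n ∈ Ioc X (2 * X), (f n - 1 + δ + 2 * (if f n < 1 - δ then (1 : ℝ) else 0)) =
        ∑ n ∈ Ioc X (2 * X), f n - X + δ * X + 2 * (B.card : ℝ) := by
      rw [sum_add_distrib, sum_add_distrib, sum_sub_distrib, ← mul_sum, ← sum_filter, sum_const,
        sum_const, sum_const, Nat.card_Ioc, nsmul_eq_mul, nsmul_eq_mul, nsmul_eq_mul]
      have : ((2 * X - X : ℕ) : ℝ) = X := by
        rw [show 2 * X - X = X by omega]
      rw [this]
      ring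
    rw [sum_sub_distrib, sum_const, nsmul_eq_mul, mul_one] at b2
    rw [b3] at b1
    have b4 : ((S X).card : ℝ) * (Real.log L - 1) - C3 * X / L - C1 * X / L - δ * X ≤
        2 * (B.card : ℝ) := by linarith
    have b5 : ((X : ℝ) / L - C2 * X / L ^ 2 - 1) * (Real.log L - 1) ≤
        ((S X).card : ℝ) * (Real.log L - 1) :=
      mul_le_mul_of_nonneg_right (by linarith) (by linarith)
    have b6 : (X : ℝ) / L * Real.log L - (C2 + 2) * X / L ≤
        ((X : ℝ) / L - C2 * X / L ^ 2 - 1) * (Real.log L - 1) := by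
      have e1 : C2 * X / L ^ 2 * Real.log L ≤ C2 * X / L := by
        calc C2 * X / L ^ 2 * Real.log L ≤ C2 * X / L ^ 2 * L := by gcongr
          _ = C2 * X / L := by field_simp
      have e2 : Real.log L ≤ X / L := by
        rw [le_div_iff₀ hlog]
        have h10 : Real.log L ≤ L / 2 := by
          have h15 : 0 < L / 2 := by linarith
          have h12 := Real.log_le_sub_one_of_pos h15
          rw [Real.log_div hlog.ne' (by norm_num)] at h12
          linarith [Real.log_two_lt_d9]
        have h11 : 1 + L + L ^ 2 / 2 ≤ X := by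
          have := Real.quadratic_le_exp_of_nonneg hlog.le
          rwa [hL, Real.exp_log hX0, ← hL] at this
        have h19 : Real.log L * L ≤ L / 2 * L := mul_le_mul_of_nonneg_right h10 hlog.le
        nlinarith
      have e3 : ((X : ℝ) / L - C2 * X / L ^ 2 - 1) * (Real.log L - 1) =
          (X : ℝ) / L * Real.log L - C2 * X / L ^ 2 * Real.log L - Real.log L - X / L +
            C2 * X / L ^ 2 + 1 := by ring
      have e4 : 0 ≤ C2 * X / L ^ 2 := by positivity
      have e5 : (C2 + 2) * X / L = C2 * X / L + X / L + X / L := by ring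
      rw [e3, e5]
      linarith
    have b7 : (X : ℝ) / 2 * ((Real.log L - (C1 + C2 + C3 + 4)) / L - δ) =
        1 / 2 * ((X : ℝ) / L * Real.log L - (C2 + 2) * X / L - C3 * X / L - C1 * X / L - δ * X) -
          X / L := by
      field_simp
      ring
    have b8 : 0 ≤ (X : ℝ) / L := by positivity
    rw [b7]
    linarith

end Pool.Agent.H38.LV
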