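import Mathlib

/-!
# [H38 LV GAP] The sum over one prime gap

`f n = ∑ 1/(n - p)` over the primes `p < n`. In a prime gap `(p, p + g]` one has
`f (p + j) - f (p + j') ≥ 1/j - 1/j'` for `1 ≤ j ≤ j' ≤ g`.
-/

namespace Pool.Agent.H38.LV

open Finset

/-- The sum of the problem. -/
noncomputable def f (n : ℕ) : ℝ := ∑ p ∈ (range n).filter Nat.Prime, (1 : ℝ) / ((n : ℝ) - p)

theorem f_nonneg (n : ℕ) : 0 ≤ f n := by
  refine sum_nonneg fun p hp => ?_
  rw [mem_filter, mem_range] at hp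
  have : (p : ℝ) < n := by exact_mod_cast hp.1
  exact div_nonneg zero_le_one (by linarith)

/-- In a gap after the prime `p`. -/
theorem f_gap (p j : ℕ) (hp : p.Prime) (hj : 1 ≤ j) (hg : ∀ q, p < q → q < p + j → ¬ q.Prime) :
    f (p + j) = 1 / (j : ℝ) + ∑ q ∈ (range p).filter Nat.Prime, (1 : ℝ) / (((p + j : ℕ) : ℝ) - q) := by
  have h : (range (p + j)).filter Nat.Prime = insert p ((range p).filter Nat.Prime) := by
    ext q
    simp only [mem_filter, mem_range, mem_insert]
    constructor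
    · rintro ⟨h1, h2⟩
      rcases lt_trichotomy q p with h | h | h
      · exact Or.inr ⟨h, h2⟩
      · exact Or.inl h
      · exact absurd h2 (hg q h h1)
    · rintro (h | ⟨h1, h2⟩)
      · subst h
        exact ⟨by omega, hp⟩
      · exact ⟨by omega, h2⟩
  rw [f, h, sum_insert (by simp)]
  congr 2
  push_cast
  ring

theorem f_gap_sub (p j j' : ℕ) (hp : p.Prime) (hj : 1 ≤ j) (hjj : j ≤ j')
    (hg : ∀ q, p < q → q < p + j' → ¬ q.Prime) :
    1 / (j : ℝ) - 1 / (j' : ℝ) ≤ f (p + j) - f (p + j') := by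
  rw [f_gap p j hp hj fun q h1 h2 => hg q h1 (by omega), f_gap p j' hp (by omega) hg]
  have : ∑ q ∈ (range p).filter Nat.Prime, (1 : ℝ) / (((p + j' : ℕ) : ℝ) - q) ≤
      ∑ q ∈ (range p).filter Nat.Prime, (1 : ℝ) / (((p + j : ℕ) : ℝ) - q) := by
    refine sum_le_sum fun q hq => ?_
    rw [mem_filter, mem_range] at hq
    have h1 : (q : ℝ) < p := by exact_mod_cast hq.1
    have h2 : ((p + j : ℕ) : ℝ) ≤ ((p + j' : ℕ) : ℝ) := by exact_mod_cast (by omega : p + j ≤ p + j')
    have h3 : (p : ℝ) ≤ ((p + j : ℕ) : ℝ) := by exact_mod_cast (by omega : p ≤ p + j)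
    exact one_div_le_one_div_of_le (by linarith) (by linarith)
  linarith

/-- The sum over one gap. -/
theorem gap_sum (p : ℕ) (hp : p.Prime) (δ : ℝ) (hδ : 0 ≤ δ) : ∀ g : ℕ, 1 ≤ g →
    (∀ q, p < q → q < p + g → ¬ q.Prime) →
    (∑ j ∈ Icc 1 g, 1 / (j : ℝ)) - 1 ≤
      ∑ j ∈ Icc 1 g, (f (p + j) - 1 + δ + 2 * (if f (p + j) < 1 - δ then 1 else 0)) := by
  have hY : ∀ n : ℕ, 0 ≤ f n - 1 + δ + 2 * (if f n < 1 - δ then (1 : ℝ) else 0) := by
    intro n
    have := f_nonneg n
    split_ifs with h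
    · linarith
    · linarith
  intro g hg
  induction g, hg using Nat.le_induction with
  | base =>
    intro _
    have := hY (p + 1)
    simpa using this
  | succ g hg ih =>
    intro hq
    by_cases hneg : f (p + (g + 1)) < 1 - δ
    · have h1 := ih fun q h1 h2 => hq q h1 (by omega)
      rw [sum_Icc_succ_top (by omega), sum_Icc_succ_top (by omega)]
      have h2 : (1 : ℝ) / ((g + 1 : ℕ) : ℝ) ≤ 1 := by
        rw [div_le_one (by positivity)]
        exact_mod_cast (by omega : 1 ≤ g + 1)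
      have h3 := f_nonneg (p + (g + 1))
      rw [if_pos hneg]
      linarith
    · have hs : ∀ j ∈ Icc 1 (g + 1), (1 : ℝ) / j - 1 / ((g + 1 : ℕ) : ℝ) ≤
          f (p + j) - 1 + δ + 2 * (if f (p + j) < 1 - δ then 1 else 0) := by
        intro j hj
        rw [mem_Icc] at hj
        have h1 := f_gap_sub p j (g + 1) hp hj.1 hj.2 hq
        have h2 : (0 : ℝ) ≤ (if f (p + j) < 1 - δ then 1 else 0) := by split_ifs <;> norm_num
        rw [not_lt] at hneg
        linarith
      have h4 := sum_le_sum hs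
      rw [sum_sub_distrib, sum_const, Nat.card_Icc] at h4
      have h5 : (g + 1 + 1 - 1) • ((1 : ℝ) / ((g + 1 : ℕ) : ℝ)) = 1 := by
        rw [nsmul_eq_mul]
        have : ((g + 1 + 1 - 1 : ℕ) : ℝ) = ((g + 1 : ℕ) : ℝ) := by
          congr 1
        rw [this]
        have : ((g + 1 : ℕ) : ℝ) ≠ 0 := by positivity
        field_simp
      rw [h5] at h4
      exact h4

end Pool.Agent.H38.LV
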