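import Pool.Agent.H92.VS.Main
import Pool.Agent.H38.LV.Def

/-!
# Virtually solvable normal subgroups are hyper-(locally nilpotent or locally finite)
-/

set_option autoImplicit false

namespace Pool.Agent.H38.LV

open Pool.Agent.H92.VS

/-- the derived series in the group -/
private def DD {G : Type} [Group G] (R : Subgroup G) : ℕ → Subgroup G
  | 0 => R
  | n + 1 => ⁅DD R n, DD R n⁆

private theorem DD_map {G : Type} [Group G] (R : Subgroup G) (n : ℕ) : (derivedSeries R n).map R.subtype = DD R n := by
  induction n with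
  | zero =>
    show (⊤ : Subgroup R).map R.subtype = R
    rw [← MonoidHom.range_eq_map, Subgroup.range_subtype]
  | succ n ih =>
    rw [derivedSeries_succ, Subgroup.map_commutator, ih]
    rfl

private theorem DD_normal {G : Type} [Group G] (R : Subgroup G) [hR : R.Normal] (n : ℕ) : (DD R n).Normal := by
  induction n with
  | zero => exact hR
  | succ n ih => exact Subgroup.commutator_normal (DD R n) (DD R n)

private theorem DD_le {G : Type} [Group G] (R : Subgroup G) (n : ℕ) : DD R n ≤ R := by
  rw [← DD_map]
  exact Subgroup.map_subtype_le _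

/-- a solvable normal subgroup contains a commutative normal subgroup -/
theorem exists_comm {G : Type} [Group G] (R : Subgroup G) [R.Normal] (hs : Group.IsSolvable R) (hne : R ≠ ⊥) :
    ∃ L : Subgroup G, L.Normal ∧ L ≤ R ∧ L ≠ ⊥ ∧ ∀ a ∈ L, ∀ b ∈ L, a * b = b * a := by
  classical
  have h : ∃ n, DD R n = ⊥ := by
    obtain ⟨n, hn⟩ := hs.solvable
    refine ⟨n, ?_⟩
    rw [← DD_map, hn, Subgroup.map_bot]
  have h0 := Nat.find_spec h
  rcases hm : Nat.find h with _ | m
  · rw [hm] at h0
    exact (hne h0).elim
  · rw [hm] at h0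
    have h1 : DD R m ≠ ⊥ := Nat.find_min h (by omega)
    refine ⟨DD R m, DD_normal R m, DD_le R m, h1, ?_⟩
    have h2 : DD R m ≤ Subgroup.centralizer (DD R m) := Subgroup.commutator_eq_bot_iff_le_centralizer.1 h0
    intro a ha b hb
    exact ((Subgroup.mem_centralizer_iff.1 (h2 ha)) b hb).symm

/-- virtually solvable kernels -/
theorem isHyper_of_virt {H : Type} [Group H] (K : Subgroup H) [hKn : K.Normal] (h : VirtSolv K) : IsHyper K := by
  intro M hM hMK
  obtain ⟨Kb, hKb⟩ : ∃ Kb, Kb = K.map (QuotientGroup.mk' M) := ⟨_, rfl⟩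
  have hn : Kb.Normal := by
    rw [hKb]
    exact Subgroup.Normal.map hKn _ (QuotientGroup.mk'_surjective M)
  have hne : Kb ≠ ⊥ := by
    intro h0
    rw [hKb, Subgroup.map_eq_bot_iff, QuotientGroup.ker_mk'] at h0
    exact (not_le_of_gt hMK) h0
  -- the quotient is virtually solvable
  have hv : VirtSolv Kb := by
    obtain ⟨N, hN, hs⟩ := h
    let f : K →* K.map (QuotientGroup.mk' M) := (QuotientGroup.mk' M).subgroupMap K
    have hf : Function.Surjective f := (QuotientGroup.mk' M).subgroupMap_surjective K
    rw [hKb]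
    refine ⟨N.map f, ⟨?_⟩, Group.isSolvable_of_surjective (f.subgroupMap_surjective N)⟩
    intro h0
    have h1 := Subgroup.index_map_dvd N hf
    rw [h0, zero_dvd_iff] at h1
    exact hN.index_ne_zero h1
  obtain ⟨R, hR1, hR2, hR3, hR4⟩ := exists_radical hv
  by_cases hR : R = ⊥
  · refine ⟨Kb, hn, hne, le_of_eq hKb, Or.inr ?_⟩
    have hfin : Finite Kb := by
      rw [hR] at hR2
      have h1 : (⊥ : Subgroup Kb).index ≠ 0 := hR2.index_ne_zero
      rw [Subgroup.index_bot] at h1
      exact Nat.finite_of_card_ne_zero h1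
    intro S _
    infer_instance
  · -- the radical is normal in the big group
    let R' : Subgroup (H ⧸ M) := R.map Kb.subtype
    have hR' : R'.Normal := by
      constructor
      rintro _ ⟨r, hr, rfl⟩ g
      let c : Kb ≃* Kb := MulAut.conjNormal g
      have h1 : (R.map c.toMonoidHom).Normal := Subgroup.Normal.map hR1 _ c.surjective
      have h2 : Group.IsSolvable (R.map c.toMonoidHom) :=
        Group.isSolvable_of_surjective (c.toMonoidHom.subgroupMap_surjective R)
      have h3 : c r ∈ R := hR4 _ h1 h2 ⟨r, hr, rfl⟩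
      exact ⟨c r, h3, MulAut.conjNormal_apply g r⟩
    have hs' : Group.IsSolvable R' := Group.isSolvable_of_surjective (Kb.subtype.subgroupMap_surjective R)
    have hne' : R' ≠ ⊥ := by
      intro h0
      exact hR ((Subgroup.map_eq_bot_iff_of_injective R Kb.subtype_injective).1 h0)
    obtain ⟨L, h1, h2, h3, h4⟩ := exists_comm R' hs' hne'
    refine ⟨L, h1, h3, ?_, Or.inl ?_⟩
    · rw [← hKb]
      exact h2.trans (Subgroup.map_subtype_le R)
    · intro S _
      let _ : CommGroup S :=
        { (inferInstance : Group S) with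
          mul_comm := fun a b => Subtype.ext (Subtype.ext (h4 _ a.1.2 _ b.1.2)) }
      exact CommGroup.isNilpotent

end Pool.Agent.H38.LV
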