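import Pool.Agent.H76.LN.Main
import Pool.Agent.H38.GN.TameRad
import Pool.Agent.H38.LV.Virt

/-!
# Linear groups and hyper-(locally nilpotent, locally finite, tame) kernels
-/

set_option autoImplicit false

namespace Pool.Agent.H38.LV

open Pool.Agent.H98.FJ Pool.Agent.H76.GT Pool.Agent.H76.LN

variable {C : (G : Type) → [Group G] → Prop}

/-- the linear groups -/
theorem range_mem (hC : Inherits C) (hE : Extension C) (hT : TransferV C)
    (hS : ∀ (G : Type) [Group G], Group.IsSolvable G → C G) (hQ : ∀ n : ℕ, C (GL (Fin n) ℚ)) {H A M : Type} [Group H]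
    [CommRing A] [AddCommGroup M] [Module A M] [Module.Finite A M] (f : H →* (M ≃ₗ[A] M)) : C f.range := by
  refine main hC hE hT hS hQ f.range fun K _ => ⟨A, M, inferInstance, inferInstance, inferInstance, inferInstance,
    (f.range.subtype).comp K.subtype, ⊤, inferInstance, ?_⟩
  have h : ((f.range.subtype).comp K.subtype).ker = ⊥ := by
    rw [MonoidHom.ker_eq_bot_iff]
    exact (Subtype.val_injective).comp Subtype.val_injective
  have h1 : Subsingleton ((f.range.subtype).comp K.subtype).ker := by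
    rw [h]
    infer_instance
  infer_instance

/-- **linear groups with hyper-(locally nilpotent or locally finite) kernels** -/
theorem linear_hyper (hC : Inherits C) (hE : Extension C) (hT : TransferV C)
    (hS : ∀ (G : Type) [Group G], Group.IsSolvable G → C G) (hQ : ∀ n : ℕ, C (GL (Fin n) ℚ)) (G : Type) [Group G]
    (h : ∀ H : Subgroup G, H.FG → ∃ (A M : Type) (_ : CommRing A) (_ : AddCommGroup M) (_ : Module A M)
      (_ : Module.Finite A M) (f : H →* (M ≃ₗ[A] M)), IsHyper f.ker) : C G := by
  refine ind_fg hC G fun H hH => ?_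
  obtain ⟨A, M, i1, i2, i3, i4, f, hf⟩ := h H hH
  have h1 : C (H ⧸ f.ker) := hC.iso _ _ (QuotientGroup.quotientKerEquivRange f).symm (range_mem hC hE hT hS hQ f)
  exact Pool.Agent.H38.GN.radical hC hE hT.transfer hS f.ker h1 hf

/-- hyper-(locally nilpotent, locally finite, or tame and locally virtually polycyclic) -/
def Hyper (C : (G : Type) → [Group G] → Prop) {H : Type} [Group H] (K : Subgroup H) : Prop :=
  ∀ (M : Subgroup H) [M.Normal], M < K → ∃ L : Subgroup (H ⧸ M), L.Normal ∧ L ≠ ⊥ ∧
    L ≤ K.map (QuotientGroup.mk' M) ∧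
    (Pool.Agent.H50.GS.LocNil L ∨ Pool.Agent.H50.GS.LocFin L ∨ (Pool.Agent.H50.GS.Tame C L ∧ Pool.Agent.H50.GS.LVP L))

/-- **linear groups with hyper-(locally nilpotent, locally finite, tame) kernels** -/
theorem linear_radical (hC : Inherits C) (hE : Extension C) (hT : TransferV C)
    (hS : ∀ (G : Type) [Group G], Group.IsSolvable G → C G) (hQ : ∀ n : ℕ, C (GL (Fin n) ℚ)) (G : Type) [Group G]
    (h : ∀ H : Subgroup G, H.FG → ∃ (A M : Type) (_ : CommRing A) (_ : AddCommGroup M) (_ : Module A M)
      (_ : Module.Finite A M) (f : H →* (M ≃ₗ[A] M)), Hyper C f.ker) : C G := by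
  refine ind_fg hC G fun H hH => ?_
  obtain ⟨A, M, i1, i2, i3, i4, f, hf⟩ := h H hH
  have h1 : C (H ⧸ f.ker) := hC.iso _ _ (QuotientGroup.quotientKerEquivRange f).symm (range_mem hC hE hT hS hQ f)
  exact Pool.Agent.H38.GN.radical_tame hC hE hT.transfer hS f.ker h1 hf

end Pool.Agent.H38.LV
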